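import Pool.Agent.H57.ML.Targets

/-!
# CNT (MP_6ecee4_co): every point is hit only boundedly often
-/

namespace H33.ML

open scoped BigOperators
open Finset
open H57.ML
open Classical

theorem l1_nonneg {V : Type*} [Fintype V] (ζ : V → V → ℝ) (u u' : V) : 0 ≤ l1 ζ u u' :=
  Finset.sum_nonneg fun _ _ => abs_nonneg _

theorem var_nonneg {V : Type*} [Fintype V] (H : SimpleGraph V) (ζ : V → V → ℝ) (u : V) :
    0 ≤ var H ζ u :=
  Finset.sum_nonneg fun _ _ => l1_nonneg _ _ _

theorem var2_nonneg {V : Type*} [Fintype V] (H : SimpleGraph V) (ζ : V → V → ℝ) (u : V) :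
    0 ≤ var2 H ζ u :=
  Finset.sum_nonneg fun _ _ => sq_nonneg _

/-- Cauchy-Schwarz. -/
theorem var_sq_le {V : Type*} [Fintype V] {H : SimpleGraph V} {D : ℕ} (hD : DegLE H D)
    (ζ : V → V → ℝ) (u : V) : (var H ζ u) ^ 2 ≤ D * var2 H ζ u := by
  have h := sq_sum_le_card_mul_sum_sq (s := univ.filter (fun u' => H.Adj u u'))
    (f := fun u' => l1 ζ u u')
  have h2 : ((univ.filter (fun u' => H.Adj u u')).card : ℝ) ≤ D := by
    exact_mod_cast hD u
  have h3 : 0 ≤ var2 H ζ u := var2_nonneg H ζ u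
  calc (var H ζ u) ^ 2 ≤ ((univ.filter (fun u' => H.Adj u u')).card : ℝ) * var2 H ζ u := h
    _ ≤ D * var2 H ζ u := by gcongr

theorem En_nonneg {V : Type*} [Fintype V] {H : SimpleGraph V} {Q : V → V → ℝ}
    (hQ : ∀ x u, 0 ≤ Q x u) (ζ : V → V → ℝ) (x : V) : 0 ≤ En H Q ζ x :=
  Finset.sum_nonneg fun u _ => mul_nonneg (hQ x u) (var2_nonneg _ _ _)

/-- a hit costs energy. -/
theorem En_ge_of_var {V : Type*} [Fintype V] {H : SimpleGraph V} {D J : ℕ} (hD1 : 1 ≤ D)
    (hD : DegLE H D) {Q τ : V → V → ℝ} (hQ : IsKernel H D J Q τ) (ζ : V → V → ℝ) (x w : V) (i : ℕ)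
    (hi : i < J) (hw : Within H i x w) (η : ℝ) (hη : 0 < η) (hv : η ≤ var H ζ w) :
    η ^ 2 / (D * (2 * (2 * (D : ℝ)) ^ i)) ≤ En H Q ζ x := by
  have hDpos : (0 : ℝ) < D := by exact_mod_cast hD1
  have h1 := hQ.lower x w i hi hw
  have h2 := var_sq_le hD ζ w
  have h3 : η ^ 2 ≤ (var H ζ w) ^ 2 := by gcongr
  have h4 : η ^ 2 / D ≤ var2 H ζ w := by
    rw [div_le_iff₀ hDpos]
    nlinarith
  have h5 : Q x w * var2 H ζ w ≤ En H Q ζ x := by
    unfold En
    exact Finset.single_le_sum (f := fun u => Q x u * var2 H ζ u)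
      (fun u _ => mul_nonneg (hQ.nonneg x u) (var2_nonneg _ _ _)) (mem_univ w)
  refine le_trans ?_ h5
  have h6 : η ^ 2 / (D * (2 * (2 * (D : ℝ)) ^ i)) = 1 / (2 * (2 * (D : ℝ)) ^ i) * (η ^ 2 / D) := by
    field_simp
  rw [h6]
  gcongr
  exact hQ.nonneg x w

/-- counting hits along the suffixes. -/
theorem cnt_mul_le {V : Type*} [Fintype V] (H : SimpleGraph V) (ρ : ℕ → ℕ) (m : ℕ)
    (ξ : List V → V → V → ℝ) (η : ℝ) (i : ℕ) (x : V) (φ : List V → ℝ) (κ : ℝ)
    (hφ0 : ∀ s, 0 ≤ φ s) (hφ : ∀ s, Hit H ρ m ξ η i x s → κ ≤ φ s) (s : List V) :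
    κ * (cnt H ρ m ξ η i x s : ℝ) ≤ ∑ j ∈ Ico 1 (s.length + 1), φ (s.drop (s.length - j)) := by
  induction s with
  | nil => simp [cnt]
  | cons y s ih =>
    have h1 : ∑ j ∈ Ico 1 ((y :: s).length + 1), φ ((y :: s).drop ((y :: s).length - j)) =
        ∑ j ∈ Ico 1 (s.length + 1), φ (s.drop (s.length - j)) + φ (y :: s) := by
      rw [List.length_cons, Finset.sum_Ico_succ_top (by omega)]
      congr 1
      · refine Finset.sum_congr rfl fun j hj => ?_
        have hj' := Finset.mem_Ico.mp hj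
        have e1 : s.length + 1 - j = (s.length - j) + 1 := by omega
        rw [e1, List.drop_succ_cons]
      · simp
    rw [h1]
    simp only [cnt]
    by_cases hh : Hit H ρ m ξ η i x (y :: s)
    · rw [if_pos hh]
      have := hφ _ hh
      push_cast
      nlinarith
    · rw [if_neg hh]
      have := hφ0 (y :: s)
      simp only [add_zero]
      linarith

/-- the relevant suffix. -/
theorem exists_suffix {V : Type*} [Fintype V] (H : SimpleGraph V) (ρ : ℕ → ℕ) (m : ℕ)
    (ξ : List V → V → V → ℝ) (η : ℝ) (i : ℕ) (x : V) (l : List V) :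
    cnt H ρ m ξ η i x l = 0 ∨ ∃ s : List V, s.length < m ∧ Rel H ρ s x ∧
      cnt H ρ m ξ η i x l ≤ cnt H ρ m ξ η i x s := by
  induction l with
  | nil => left; simp [cnt]
  | cons y s ih =>
    by_cases hh : Hit H ρ m ξ η i x (y :: s)
    · right
      exact ⟨y :: s, hh.1, hh.2.1, le_rfl⟩
    · have e1 : cnt H ρ m ξ η i x (y :: s) = cnt H ρ m ξ η i x s := by
        simp [cnt, hh]
      rw [e1]
      exact ih

theorem rel_replicate {V : Type*} (H : SimpleGraph V) (ρ : ℕ → ℕ) (x : V) (k : ℕ) (s : List V)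
    (hs : Rel H ρ s x) : Rel H ρ (List.replicate k x ++ s) x := by
  induction k with
  | zero => simpa using hs
  | succ k ih =>
    rw [List.replicate_succ, List.cons_append]
    exact ⟨Within.refl _ _, ih⟩

/-- CNT. -/
theorem cntThm (hStr : StrStmt) : CntStmt := by
  intro D m J η hD1 hη hJ ρ V _ H hdeg
  obtain ⟨Q, τ, ξ, hQ, hξ, hE⟩ := hStr D m J hD1 hJ ρ V H hdeg
  refine ⟨ξ, hξ, ?_⟩
  intro l x i hi
  have hDpos : (0 : ℝ) < D := by exact_mod_cast hD1
  set C : ℝ := 64 * (D : ℝ) ^ 3 + 1 with hC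
  have hCpos : 0 < C := by positivity
  rcases exists_suffix H ρ m ξ η i x l with h0 | ⟨s, hsm, hsrel, hle⟩
  · rw [h0]
    simp only [Nat.cast_zero]
    positivity
  · have h1 : (cnt H ρ m ξ η i x l : ℝ) ≤ (cnt H ρ m ξ η i x s : ℝ) := by exact_mod_cast hle
    refine h1.trans ?_
    set κ : ℝ := η ^ 2 / (D * (2 * (2 * (D : ℝ)) ^ i)) with hκ
    have hκ0 : 0 < κ := by positivity
    have h2 := cnt_mul_le H ρ m ξ η i x (fun s => En H Q (ξ s) x) κ
      (fun s => En_nonneg hQ.nonneg _ _) (fun s hs => by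
        obtain ⟨_, _, w, hw, hwi⟩ := hs
        exact En_ge_of_var hD1 hdeg hQ (ξ s) x w i hi hwi η hη hw) s
    have h3 := hE (List.replicate (m - s.length) x ++ s) x (by
      simp only [List.length_append, List.length_replicate]; omega)
      (rel_replicate H ρ x _ s hsrel)
    have h4 : ∑ j ∈ Ico 1 (s.length + 1), En H Q (ξ (s.drop (s.length - j))) x ≤
        ∑ j ∈ Ico 1 m, En H Q (ξ ((List.replicate (m - s.length) x ++ s).drop (m - j))) x := by
      have h5 : ∑ j ∈ Ico 1 (s.length + 1), En H Q (ξ (s.drop (s.length - j))) x =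
          ∑ j ∈ Ico 1 (s.length + 1),
            En H Q (ξ ((List.replicate (m - s.length) x ++ s).drop (m - j))) x := by
        refine Finset.sum_congr rfl fun j hj => ?_
        have hj' := Finset.mem_Ico.mp hj
        have e1 : m - j = (m - s.length) + (s.length - j) := by omega
        have e2 : (List.replicate (m - s.length) x ++ s).drop (m - j) = s.drop (s.length - j) := by
          rw [e1, List.drop_append]
          simp
        rw [e2]
      rw [h5]
      refine Finset.sum_le_sum_of_subset_of_nonneg ?_ fun j _ _ => En_nonneg hQ.nonneg _ _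
      intro j hj
      have hj' := Finset.mem_Ico.mp hj
      exact Finset.mem_Ico.mpr ⟨hj'.1, by omega⟩
    have h6 : κ * (cnt H ρ m ξ η i x s : ℝ) ≤ C := (h2.trans h4).trans h3
    have h7 : C * D * (2 * (2 * (D : ℝ)) ^ i) / η ^ 2 = C / κ := by
      rw [hκ]
      field_simp
    rw [h7, le_div_iff₀ hκ0]
    linarith

end H33.ML
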