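import Pool.Agent.H57.ML.Targets

/-!
# CONC (MP_6ecee4_co): concentration for sums of bounded variables with sparse dependencies
-/

namespace H33.ML

open scoped BigOperators
open Finset
open H57.ML
open Classical

section Indep

variable {I Λ : Type*} [Fintype I] [Fintype Λ]

/-- two functions of disjoint sets of coordinates are independent. -/
theorem indep_two (A : Finset I) (f g : (I → Λ) → ℝ)
    (hf : ∀ ω ω', (∀ i ∈ A, ω i = ω' i) → f ω = f ω')
    (hg : ∀ ω ω', (∀ i ∉ A, ω i = ω' i) → g ω = g ω') :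
    (∑ ω, f ω) * (∑ ω, g ω) = (Fintype.card (I → Λ) : ℝ) * ∑ ω, f ω * g ω := by
  have hswap : ∑ q : (I → Λ) × (I → Λ), f q.1 * g q.2 =
      ∑ q : (I → Λ) × (I → Λ), f q.1 * g q.1 := by
    let e : (I → Λ) × (I → Λ) → (I → Λ) × (I → Λ) := fun q =>
      (fun i => if i ∈ A then q.1 i else q.2 i, fun i => if i ∈ A then q.2 i else q.1 i)
    have he : ∀ q, e (e q) = q := by
      rintro ⟨a, b⟩
      refine Prod.ext ?_ ?_
      · funext i; by_cases hi : i ∈ A <;> simp [e, hi]
      · funext i; by_cases hi : i ∈ A <;> simp [e, hi]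
    have hinv : Function.Involutive e := he
    refine Fintype.sum_equiv hinv.toPerm _ _ ?_
    rintro ⟨a, b⟩
    have h1 : f a = f (e (a, b)).1 := by
      apply hf; intro i hi; simp [e, hi]
    have h2 : g b = g (e (a, b)).1 := by
      apply hg; intro i hi; simp [e, hi]
    show f a * g b = f (e (a, b)).1 * g (e (a, b)).1
    rw [← h1, ← h2]
  rw [Finset.sum_mul_sum, ← Fintype.sum_prod_type', hswap, Fintype.sum_prod_type]
  simp only [Finset.sum_const, Finset.card_univ, nsmul_eq_mul]
  rw [Finset.mul_sum]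

/-- product bound for nonnegative functions of pairwise disjoint sets of coordinates. -/
theorem prod_le {U : Type*} [Nonempty Λ] (dep : U → Finset I) (f : U → (I → Λ) → ℝ) (c : ℝ)
    (hc : 0 ≤ c) (hf0 : ∀ u ω, 0 ≤ f u ω)
    (hf : ∀ u ω ω', (∀ i ∈ dep u, ω i = ω' i) → f u ω = f u ω')
    (hs : ∀ u, ∑ ω, f u ω ≤ c * (Fintype.card (I → Λ) : ℝ)) (S : Finset U)
    (hS : ∀ u ∈ S, ∀ u' ∈ S, u ≠ u' → Disjoint (dep u) (dep u')) :
    ∑ ω, ∏ u ∈ S, f u ω ≤ c ^ S.card * (Fintype.card (I → Λ) : ℝ) := by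
  induction S using Finset.induction_on with
  | empty => simp
  | insert a S ha ih =>
    have ih' := ih (fun u hu u' hu' h => hS u (mem_insert_of_mem hu) u' (mem_insert_of_mem hu') h)
    have hN : (0 : ℝ) < (Fintype.card (I → Λ) : ℝ) := by
      exact_mod_cast Fintype.card_pos
    simp only [Finset.prod_insert ha, Finset.card_insert_of_notMem ha]
    have key := indep_two (dep a) (f a) (fun ω => ∏ u ∈ S, f u ω) (hf a) (by
      intro ω ω' h
      refine Finset.prod_congr rfl ?_
      intro u hu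
      apply hf
      intro i hi
      apply h
      intro hia
      have hd := hS a (mem_insert_self _ _) u (mem_insert_of_mem hu) (by
        rintro rfl; exact ha hu)
      exact (Finset.disjoint_left.mp hd hia hi))
    have h0 : 0 ≤ ∑ ω, ∏ u ∈ S, f u ω :=
      Finset.sum_nonneg fun ω _ => Finset.prod_nonneg fun u _ => hf0 u ω
    have h1 : (∑ ω, f a ω) * (∑ ω, ∏ u ∈ S, f u ω) ≤
        (c * (Fintype.card (I → Λ) : ℝ)) * (c ^ S.card * (Fintype.card (I → Λ) : ℝ)) :=
      mul_le_mul (hs a) ih' h0 (by positivity)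
    rw [key] at h1
    have h2 : (Fintype.card (I → Λ) : ℝ) * ∑ ω, f a ω * ∏ u ∈ S, f u ω ≤
        (Fintype.card (I → Λ) : ℝ) * (c ^ (S.card + 1) * (Fintype.card (I → Λ) : ℝ)) := by
      calc _ ≤ _ := h1
        _ = _ := by ring
    exact le_of_mul_le_mul_left h2 hN

end Indep

/-- Hoeffding's lemma (one point). -/
theorem exp_le_cosh {x B lam : ℝ} (hB : 0 < B) (hx : |x| ≤ B) :
    Real.exp (lam * x) ≤ Real.cosh (lam * B) + x / B * Real.sinh (lam * B) := by
  have h := abs_le.mp hx
  have ha : 0 ≤ (B - x) / (2 * B) := by apply div_nonneg <;> linarith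
  have hb : 0 ≤ (B + x) / (2 * B) := by apply div_nonneg <;> linarith
  have hab : (B - x) / (2 * B) + (B + x) / (2 * B) = 1 := by field_simp; ring
  have hconv := convexOn_exp.2 (Set.mem_univ (-(lam * B))) (Set.mem_univ (lam * B)) ha hb hab
  have e1 : ((B - x) / (2 * B)) • (-(lam * B)) + ((B + x) / (2 * B)) • (lam * B) = lam * x := by
    simp only [smul_eq_mul]; field_simp; ring
  rw [e1] at hconv
  refine hconv.trans (le_of_eq ?_)
  rw [Real.cosh_eq, Real.sinh_eq]
  simp only [smul_eq_mul]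
  field_simp
  ring

/-- one colour class. -/
theorem class_bound {I Λ U : Type*} [Fintype I] [Fintype Λ] [Nonempty Λ] (x : U → (I → Λ) → ℝ)
    (dep : U → Finset I) (F : ℕ) (B t : ℝ) (hB : 0 < B) (ht : 0 < t)
    (hxB : ∀ u ω, |x u ω| ≤ B)
    (hdep : ∀ u ω ω', (∀ i ∈ dep u, ω i = ω' i) → x u ω = x u ω')
    (hmean : ∀ u, ∑ ω, x u ω ≤ 0) (S : Finset U) (hSF : S.card ≤ F)
    (hS : ∀ u ∈ S, ∀ u' ∈ S, u ≠ u' → Disjoint (dep u) (dep u')) :
    ((univ.filter (fun ω => t ≤ ∑ u ∈ S, x u ω)).card : ℝ) ≤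
      Real.exp (-(t ^ 2) / (2 * F * B ^ 2)) * (Fintype.card (I → Λ) : ℝ) := by
  have hN : (0 : ℝ) < (Fintype.card (I → Λ) : ℝ) := by
    exact_mod_cast Fintype.card_pos
  rcases Nat.eq_zero_or_pos F with rfl | hF
  · have : S = ∅ := by simpa using hSF
    subst this
    have hem : (univ.filter (fun ω : I → Λ => t ≤ ∑ u ∈ (∅ : Finset U), x u ω)) = ∅ := by
      apply Finset.filter_eq_empty_iff.mpr
      intro ω _
      simp [ht]
    rw [hem]
    simp
  have hF' : (0 : ℝ) < F := by exact_mod_cast hF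
  set lam : ℝ := t / (F * B ^ 2) with hlam
  have hlam0 : 0 < lam := by positivity
  have hs : ∀ u, ∑ ω, Real.exp (lam * x u ω) ≤
      Real.exp ((lam * B) ^ 2 / 2) * (Fintype.card (I → Λ) : ℝ) := by
    intro u
    calc ∑ ω, Real.exp (lam * x u ω)
        ≤ ∑ ω, (Real.cosh (lam * B) + x u ω / B * Real.sinh (lam * B)) :=
          Finset.sum_le_sum fun ω _ => exp_le_cosh hB (hxB u ω)
      _ = (Fintype.card (I → Λ) : ℝ) * Real.cosh (lam * B) +
            (∑ ω, x u ω) / B * Real.sinh (lam * B) := by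
          rw [Finset.sum_add_distrib, Finset.sum_const, Finset.card_univ, nsmul_eq_mul,
            ← Finset.sum_mul, Finset.sum_div]
      _ ≤ (Fintype.card (I → Λ) : ℝ) * Real.cosh (lam * B) + 0 := by
          gcongr
          apply mul_nonpos_of_nonpos_of_nonneg
          · exact div_nonpos_of_nonpos_of_nonneg (hmean u) hB.le
          · exact Real.sinh_nonneg_iff.mpr (by positivity)
      _ ≤ Real.exp ((lam * B) ^ 2 / 2) * (Fintype.card (I → Λ) : ℝ) := by
          rw [add_zero, mul_comm]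
          gcongr
          exact Real.cosh_le_exp_half_sq _
  have hprod := prod_le dep (fun u ω => Real.exp (lam * x u ω)) (Real.exp ((lam * B) ^ 2 / 2))
    (Real.exp_pos _).le (fun u ω => (Real.exp_pos _).le)
    (fun u ω ω' h => by rw [hdep u ω ω' h]) hs S hS
  have hmarkov : ((univ.filter (fun ω => t ≤ ∑ u ∈ S, x u ω)).card : ℝ) * Real.exp (lam * t) ≤
      ∑ ω, ∏ u ∈ S, Real.exp (lam * x u ω) := by
    calc ((univ.filter (fun ω => t ≤ ∑ u ∈ S, x u ω)).card : ℝ) * Real.exp (lam * t)
        = ∑ ω ∈ univ.filter (fun ω => t ≤ ∑ u ∈ S, x u ω), Real.exp (lam * t) := by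
          rw [Finset.sum_const, nsmul_eq_mul]
      _ ≤ ∑ ω ∈ univ.filter (fun ω => t ≤ ∑ u ∈ S, x u ω), ∏ u ∈ S, Real.exp (lam * x u ω) := by
          refine Finset.sum_le_sum fun ω hω => ?_
          have h := (mem_filter.mp hω).2
          rw [← Real.exp_sum, ← Finset.mul_sum]
          exact Real.exp_le_exp.mpr (mul_le_mul_of_nonneg_left h hlam0.le)
      _ ≤ ∑ ω, ∏ u ∈ S, Real.exp (lam * x u ω) :=
          Finset.sum_le_sum_of_subset_of_nonneg (Finset.filter_subset _ _)
            (fun ω _ _ => Finset.prod_nonneg fun u _ => (Real.exp_pos _).le)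
  have h2 : ((univ.filter (fun ω => t ≤ ∑ u ∈ S, x u ω)).card : ℝ) * Real.exp (lam * t) ≤
      Real.exp ((lam * B) ^ 2 / 2) ^ F * (Fintype.card (I → Λ) : ℝ) := by
    refine (hmarkov.trans hprod).trans ?_
    gcongr
    exact Real.one_le_exp (by positivity)
  have h3 : Real.exp ((lam * B) ^ 2 / 2) ^ F =
      Real.exp (-(t ^ 2) / (2 * F * B ^ 2)) * Real.exp (lam * t) := by
    rw [← Real.exp_nat_mul, ← Real.exp_add]
    congr 1
    rw [hlam]
    field_simp
    ring
  rw [h3] at h2
  have h4 : ((univ.filter (fun ω => t ≤ ∑ u ∈ S, x u ω)).card : ℝ) * Real.exp (lam * t) ≤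
      (Real.exp (-(t ^ 2) / (2 * F * B ^ 2)) * (Fintype.card (I → Λ) : ℝ)) *
        Real.exp (lam * t) := by
    refine h2.trans (le_of_eq (by ring))
  exact le_of_mul_le_mul_right h4 (Real.exp_pos _)

/-- greedy colouring. -/
theorem exists_colouring {U : Type*} [Fintype U] (R : U → U → Prop) (hR : ∀ u v, R u v → R v u)
    (Δ : ℕ) (hΔ : ∀ u, (univ.filter (fun u' => u' ≠ u ∧ R u u')).card ≤ Δ) :
    ∃ col : U → Fin (Δ + 1), ∀ u u', u ≠ u' → R u u' → col u ≠ col u' := by
  have main : ∀ S : Finset U, ∃ col : U → Fin (Δ + 1), ∀ u ∈ S, ∀ u' ∈ S, u ≠ u' → R u u' →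
      col u ≠ col u' := by
    intro S
    induction S using Finset.induction_on with
    | empty => exact ⟨fun _ => 0, by simp⟩
    | insert a S ha ih =>
      obtain ⟨col, hcol⟩ := ih
      obtain ⟨c, hc⟩ : ∃ c : Fin (Δ + 1), c ∉ (univ.filter (fun u' => u' ≠ a ∧ R a u')).image col := by
        by_contra hcon
        push Not at hcon
        have h1 : (univ : Finset (Fin (Δ + 1))) ⊆
            (univ.filter (fun u' => u' ≠ a ∧ R a u')).image col := fun c _ => hcon c
        have h2 := (card_le_card h1).trans (Finset.card_image_le.trans (hΔ a))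
        simp at h2
      refine ⟨Function.update col a c, ?_⟩
      intro u hu u' hu' hne hRu
      rcases mem_insert.mp hu with rfl | hu
      · have hu'S : u' ∈ S := by
          rcases mem_insert.mp hu' with h | h
          · exact absurd h.symm hne
          · exact h
        rw [Function.update_self, Function.update_of_ne hne.symm]
        intro hcc
        exact hc (mem_image.mpr ⟨u', by simp [hne.symm, hRu], hcc.symm⟩)
      · rcases mem_insert.mp hu' with rfl | hu'
        · rw [Function.update_self, Function.update_of_ne hne]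
          intro hcc
          exact hc (mem_image.mpr ⟨u, by simp [hne, hR _ _ hRu], hcc⟩)
        · have hua : u ≠ a := fun h => ha (h ▸ hu)
          have hua' : u' ≠ a := fun h => ha (h ▸ hu')
          rw [Function.update_of_ne hua, Function.update_of_ne hua']
          exact hcol u hu u' hu' hne hRu
  obtain ⟨col, hcol⟩ := main univ
  exact ⟨col, fun u u' h hR => hcol u (mem_univ _) u' (mem_univ _) h hR⟩

/-- CONC. -/
theorem conc : ConcStmt := by
  intro I Λ U _ _ _ _ x dep Δ F B t hB ht hUF hxB hdep hΔ hmean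
  obtain ⟨col, hcol⟩ := exists_colouring (fun u u' => ¬ Disjoint (dep u) (dep u'))
    (fun u v h h' => h h'.symm) Δ (fun u => by convert hΔ u)
  have hD : (0 : ℝ) < (Δ : ℝ) + 1 := by positivity
  have hsub : (univ.filter (fun ω => t ≤ ∑ u, x u ω)) ⊆
      (univ : Finset (Fin (Δ + 1))).biUnion (fun c =>
        univ.filter (fun ω => t / ((Δ : ℝ) + 1) ≤ ∑ u ∈ univ.filter (fun u => col u = c), x u ω)) := by
    intro ω hω
    have h := (mem_filter.mp hω).2
    by_contra hcon
    simp only [mem_biUnion, mem_univ, true_and, mem_filter, not_exists, not_le] at hcon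
    have h1 : ∑ u, x u ω = ∑ c : Fin (Δ + 1), ∑ u ∈ univ.filter (fun u => col u = c), x u ω := by
      rw [Finset.sum_fiberwise]
    have h2 : ∑ c : Fin (Δ + 1), ∑ u ∈ univ.filter (fun u => col u = c), x u ω <
        ∑ _c : Fin (Δ + 1), t / ((Δ : ℝ) + 1) :=
      Finset.sum_lt_sum_of_nonempty ⟨0, mem_univ _⟩ fun c _ => hcon c
    rw [Finset.sum_const, Finset.card_univ, Fintype.card_fin, nsmul_eq_mul] at h2
    have h3 : ((Δ + 1 : ℕ) : ℝ) * (t / ((Δ : ℝ) + 1)) = t := by
      push_cast
      field_simp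
    rw [h3] at h2
    linarith
  have hcl : ∀ c : Fin (Δ + 1), ((univ.filter (fun ω => t / ((Δ : ℝ) + 1) ≤
      ∑ u ∈ univ.filter (fun u => col u = c), x u ω)).card : ℝ) ≤
      Real.exp (-((t / ((Δ : ℝ) + 1)) ^ 2) / (2 * F * B ^ 2)) * (Fintype.card (I → Λ) : ℝ) := by
    intro c
    refine class_bound x dep F B (t / ((Δ : ℝ) + 1)) hB (by positivity) hxB hdep hmean _ ?_ ?_
    · exact (Finset.card_le_univ _).trans hUF
    · intro u hu u' hu' hne
      by_contra hcon
      have h1 := (mem_filter.mp hu).2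
      have h2 := (mem_filter.mp hu').2
      exact hcol u u' hne hcon (h1.trans h2.symm)
  calc ((univ.filter (fun ω => t ≤ ∑ u, x u ω)).card : ℝ)
      ≤ (((univ : Finset (Fin (Δ + 1))).biUnion (fun c =>
        univ.filter (fun ω => t / ((Δ : ℝ) + 1) ≤
          ∑ u ∈ univ.filter (fun u => col u = c), x u ω))).card : ℝ) := by
        exact_mod_cast card_le_card hsub
    _ ≤ ∑ c : Fin (Δ + 1), ((univ.filter (fun ω => t / ((Δ : ℝ) + 1) ≤
          ∑ u ∈ univ.filter (fun u => col u = c), x u ω)).card : ℝ) := by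
        exact_mod_cast Finset.card_biUnion_le
    _ ≤ ∑ _c : Fin (Δ + 1), Real.exp (-((t / ((Δ : ℝ) + 1)) ^ 2) / (2 * F * B ^ 2)) *
          (Fintype.card (I → Λ) : ℝ) := Finset.sum_le_sum fun c _ => hcl c
    _ = _ := by
        rw [Finset.sum_const, Finset.card_univ, Fintype.card_fin, nsmul_eq_mul]
        have : -((t / ((Δ : ℝ) + 1)) ^ 2) / (2 * F * B ^ 2) =
            -(t ^ 2) / (2 * ((Δ : ℝ) + 1) ^ 2 * F * B ^ 2) := by
          rw [div_pow, neg_div', neg_div, neg_div, div_div]

          ring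
        rw [this]
        push_cast
        ring

end H33.ML
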