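import Pool.Agent.H57.ML.Targets

/-!
# STR (MP_6ecee4_co): pointwise energy bound
-/

namespace H33.ML

open scoped BigOperators
open Finset
open H57.ML
open Classical

section

variable {V : Type} [Fintype V]

theorem l1_nonneg' (ζ : V → V → ℝ) (u u' : V) : 0 ≤ l1 ζ u u' :=
  Finset.sum_nonneg fun _ _ => abs_nonneg _

theorem l1_comb (ζ ζ' : V → V → ℝ) (a b : ℝ) (ha : 0 ≤ a) (hb : 0 ≤ b) (u u' : V) :
    l1 (a • ζ + b • ζ') u u' ≤ a * l1 ζ u u' + b * l1 ζ' u u' := by
  unfold l1
  rw [Finset.mul_sum, Finset.mul_sum, ← Finset.sum_add_distrib]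
  refine Finset.sum_le_sum fun z _ => ?_
  simp only [Pi.add_apply, Pi.smul_apply, smul_eq_mul]
  calc |a * ζ u z + b * ζ' u z - (a * ζ u' z + b * ζ' u' z)|
      = |a * (ζ u z - ζ u' z) + b * (ζ' u z - ζ' u' z)| := by congr 1; ring
    _ ≤ |a * (ζ u z - ζ u' z)| + |b * (ζ' u z - ζ' u' z)| := abs_add_le _ _
    _ = a * |ζ u z - ζ u' z| + b * |ζ' u z - ζ' u' z| := by
        rw [abs_mul, abs_mul, abs_of_nonneg ha, abs_of_nonneg hb]

theorem sq_comb {p q r a b : ℝ} (hr : 0 ≤ r) (ha : 0 ≤ a) (hb : 0 ≤ b) (hab : a + b = 1)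
    (h : r ≤ a * p + b * q) : r ^ 2 ≤ a * p ^ 2 + b * q ^ 2 := by
  have h1 : r ^ 2 ≤ (a * p + b * q) ^ 2 := by gcongr
  have h2 : (a * p + b * q) ^ 2 = a * p ^ 2 + b * q ^ 2 - a * b * (p - q) ^ 2 := by
    have hb' : b = 1 - a := by linarith
    subst hb'
    ring
  have h3 : 0 ≤ a * b * (p - q) ^ 2 := by positivity
  linarith

theorem En_comb (H : SimpleGraph V) (Q : V → V → ℝ) (hQ : ∀ x u, 0 ≤ Q x u) (ζ ζ' : V → V → ℝ)
    (a b : ℝ) (ha : 0 ≤ a) (hb : 0 ≤ b) (hab : a + b = 1) (x : V) :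
    En H Q (a • ζ + b • ζ') x ≤ a * En H Q ζ x + b * En H Q ζ' x := by
  unfold En
  rw [Finset.mul_sum, Finset.mul_sum, ← Finset.sum_add_distrib]
  refine Finset.sum_le_sum fun u _ => ?_
  have h : var2 H (a • ζ + b • ζ') u ≤ a * var2 H ζ u + b * var2 H ζ' u := by
    unfold var2
    rw [Finset.mul_sum, Finset.mul_sum, ← Finset.sum_add_distrib]
    refine Finset.sum_le_sum fun u' _ => ?_
    exact sq_comb (l1_nonneg' _ _ _) ha hb hab (l1_comb ζ ζ' a b ha hb u u')
  calc Q x u * var2 H (a • ζ + b • ζ') u ≤ Q x u * (a * var2 H ζ u + b * var2 H ζ' u) :=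
        mul_le_mul_of_nonneg_left h (hQ x u)
    _ = _ := by ring

theorem convex_Xi (H : SimpleGraph V) (ρ : ℕ → ℕ) (m J : ℕ) : Convex ℝ (Xi H ρ m J) := by
  intro ξ hξ ξ' hξ' a b ha hb hab
  refine ⟨fun s => ⟨fun u z => ?_, fun u => ?_⟩, fun s u z hs h => ?_⟩
  · simp only [Pi.add_apply, Pi.smul_apply, smul_eq_mul]
    exact add_nonneg (mul_nonneg ha ((hξ.1 s).1 u z)) (mul_nonneg hb ((hξ'.1 s).1 u z))
  · simp only [Pi.add_apply, Pi.smul_apply, smul_eq_mul]
    rw [Finset.sum_add_distrib, ← Finset.mul_sum, ← Finset.mul_sum, (hξ.1 s).2 u, (hξ'.1 s).2 u]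
    linarith
  · by_contra hcon
    apply h
    have h1 : ξ s u z = 0 := by
      by_contra h0
      exact hcon (hξ.2 s u z hs h0)
    have h2 : ξ' s u z = 0 := by
      by_contra h0
      exact hcon (hξ'.2 s u z hs h0)
    simp [h1, h2]

theorem nonempty_Xi (H : SimpleGraph V) (ρ : ℕ → ℕ) (m J : ℕ) : (Xi H ρ m J).Nonempty := by
  refine ⟨fun _ u z => if z = u then 1 else 0, fun s => ⟨fun u z => ?_, fun u => ?_⟩,
    fun s u z _ h => ?_⟩
  · show (0 : ℝ) ≤ if z = u then 1 else 0
    split_ifs <;> norm_num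
  · simp
  · by_cases hz : z = u
    · subst hz; exact Within.refl _ _
    · simp [hz] at h

theorem compact_Xi (H : SimpleGraph V) (ρ : ℕ → ℕ) (m J : ℕ) : IsCompact (Xi H ρ m J) := by
  have hK : IsCompact (Set.univ.pi fun _ : List V => Set.univ.pi fun _ : V =>
      Set.univ.pi fun _ : V => Set.Icc (0 : ℝ) 1) :=
    isCompact_univ_pi fun _ => isCompact_univ_pi fun _ => isCompact_univ_pi fun _ =>
      isCompact_Icc
  refine hK.of_isClosed_subset ?_ ?_
  · have e : Xi H ρ m J = (⋂ s : List V, ⋂ u : V, ⋂ z : V, {ξ | 0 ≤ ξ s u z}) ∩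
        (⋂ s : List V, ⋂ u : V, {ξ | ∑ z, ξ s u z = 1}) ∩
        (⋂ s : List V, ⋂ u : V, ⋂ z : V,
          {ξ | s.length < m → ξ s u z ≠ 0 → Within H (ρ (s.length + 1) + J) u z}) := by
      ext ξ
      simp only [Xi, IsProb, Set.mem_ofPred_eq, Set.mem_inter_iff, Set.mem_iInter]
      constructor
      · rintro ⟨h1, h2⟩
        exact ⟨⟨fun s u z => (h1 s).1 u z, fun s u => (h1 s).2 u⟩, h2⟩
      · rintro ⟨⟨h1, h2⟩, h3⟩
        exact ⟨fun s => ⟨h1 s, h2 s⟩, h3⟩
    rw [e]
    refine ((?_ : IsClosed _).inter ?_).inter ?_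
    · refine isClosed_iInter fun s => isClosed_iInter fun u => isClosed_iInter fun z => ?_
      exact isClosed_le continuous_const (by fun_prop)
    · refine isClosed_iInter fun s => isClosed_iInter fun u => ?_
      exact isClosed_eq (by fun_prop) continuous_const
    · refine isClosed_iInter fun s => isClosed_iInter fun u => isClosed_iInter fun z => ?_
      by_cases h : s.length < m ∧ ¬ Within H (ρ (s.length + 1) + J) u z
      · have e2 : {ξ : List V → V → V → ℝ | s.length < m → ξ s u z ≠ 0 →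
            Within H (ρ (s.length + 1) + J) u z} = {ξ | ξ s u z = 0} := by
          ext ξ
          simp only [Set.mem_ofPred_eq]
          constructor
          · intro h'
            by_contra h0
            exact h.2 (h' h.1 h0)
          · intro h0 _ h1
            exact absurd h0 h1
        rw [e2]
        exact isClosed_eq (by fun_prop) continuous_const
      · have e2 : {ξ : List V → V → V → ℝ | s.length < m → ξ s u z ≠ 0 →
            Within H (ρ (s.length + 1) + J) u z} = Set.univ := by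
          ext ξ
          simp only [Set.mem_ofPred_eq, Set.mem_univ, iff_true]
          intro hs _
          by_contra hw
          exact h ⟨hs, hw⟩
        rw [e2]
        exact isClosed_univ
  · intro ξ hξ
    simp only [Set.mem_pi, Set.mem_univ, forall_true_left, Set.mem_Icc]
    intro s u z
    refine ⟨(hξ.1 s).1 u z, ?_⟩
    rw [← (hξ.1 s).2 u]
    exact Finset.single_le_sum (f := fun z => ξ s u z) (fun z _ => (hξ.1 s).1 u z) (mem_univ z)

theorem continuous_En (H : SimpleGraph V) (Q : V → V → ℝ) (s : List V) (x : V) :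
    Continuous (fun ξ : List V → V → V → ℝ => En H Q (ξ s) x) := by
  unfold En var2 l1
  fun_prop

end

/-- STR. -/
theorem str (hKer : KerStmt) (hMu : MuStmt) (hMM : MMStmt) : StrStmt := by
  intro D m J hD hJ ρ V _ H hdeg
  obtain ⟨Q, τ, hQ⟩ := hKer D J hD V H hdeg
  let T : Finset (List V × V) := (lists V m ×ˢ univ).filter (fun q => Rel H ρ q.1 q.2)
  let A : T → (List V → V → V → ℝ) → ℝ := fun q ξ =>
    ∑ j ∈ Ico 1 m, En H Q (ξ (q.1.1.drop (m - j))) q.1.2
  obtain ⟨ξ, hξ, hA⟩ := hMM (List V → V → V → ℝ) (Xi H ρ m J) (convex_Xi H ρ m J)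
    (compact_Xi H ρ m J) (nonempty_Xi H ρ m J) T A
    (by
      intro q
      refine ⟨convex_Xi H ρ m J, ?_⟩
      intro ξ _ ξ' _ a b ha hb hab
      show ∑ j ∈ Ico 1 m, _ ≤ a * ∑ j ∈ Ico 1 m, _ + b * ∑ j ∈ Ico 1 m, _
      rw [Finset.mul_sum, Finset.mul_sum, ← Finset.sum_add_distrib]
      refine Finset.sum_le_sum fun j _ => ?_
      exact En_comb H Q hQ.nonneg _ _ a b ha hb hab _)
    (by
      intro q
      refine Continuous.continuousOn ?_
      show Continuous (fun ξ : List V → V → V → ℝ =>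
        ∑ j ∈ Ico 1 m, En H Q (ξ (q.1.1.drop (m - j))) q.1.2)
      exact continuous_finsetSum _ fun j _ => continuous_En H Q _ _)
    (64 * (D : ℝ) ^ 3 + 1)
    (by
      intro μ hμ0 hμ1
      let μ' : List V × V → ℝ := fun q => if h : q ∈ T then μ ⟨q, h⟩ else 0
      have hsum : ∀ f : List V × V → ℝ, ∑ q ∈ lists V m ×ˢ univ, μ' q * f q =
          ∑ q : T, μ q * f q.1 := by
        intro f
        have h1 : ∑ q : T, μ q * f q.1 = ∑ q ∈ T, μ' q * f q := by
          rw [← Finset.sum_coe_sort T (fun q => μ' q * f q)]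
          refine Finset.sum_congr rfl fun q _ => ?_
          simp only [μ', q.2, dif_pos]
        rw [h1]
        symm
        refine Finset.sum_subset (Finset.filter_subset _ _) ?_
        intro q _ hq
        simp only [μ', hq, dif_neg, not_false_iff, zero_mul]
      obtain ⟨ξ, hξ, hE⟩ := hMu D m J hD hJ ρ V H hdeg Q τ hQ μ' (by
        intro q
        simp only [μ']
        split_ifs with h
        · exact hμ0 _
        · exact le_rfl) (by
        have := hsum (fun _ => 1)
        simp only [mul_one] at this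
        rw [this, hμ1]) (by
        intro q hq
        by_cases h : q ∈ T
        · exact (Finset.mem_filter.mp h).2
        · simp [μ', h] at hq)
      refine ⟨ξ, hξ, ?_⟩
      have := hsum (fun q => ∑ j ∈ Ico 1 m, En H Q (ξ (q.1.drop (m - j))) q.2)
      rw [this] at hE
      exact hE)
  refine ⟨Q, τ, ξ, hQ, hξ, ?_⟩
  intro l x hl hrel
  exact hA ⟨(l, x), Finset.mem_filter.mpr
    ⟨Finset.mem_product.mpr ⟨mem_lists.mpr hl, mem_univ _⟩, hrel⟩⟩

end H33.ML
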